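import Pool.Agent.R121.SemiBaxter

set_option autoImplicit false

/-!
# Weak ascent sequences avoiding 210 and permutations avoiding 2-41-3

Both families grow along the generating tree
`(h, k) → (1, k+1), …, (h, k+1), (h+1, k), …, (h+k, 1)`.
-/

namespace Pool.Agent.Results.MP_5aad23_co.Weak210

open Finset Pool.Agent.R121 Pool.Agent.R121.SB

/-- The number of weak ascents among the first `i` entries of the sequence `a`. -/
def wasc {n : ℕ} (a : Fin n → ℕ) (i : ℕ) : ℕ :=
  ∑ j : Fin n, if 0 < j.1 ∧ j.1 < i ∧ a ⟨j.1 - 1, by omega⟩ ≤ a j then 1 else 0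

/-- Weak ascent sequences of length `n`, indices counted from `0`. -/
def IsWeakAscentSeq {n : ℕ} (a : Fin n → ℕ) : Prop :=
  ∀ i : Fin n, (i.1 = 0 → a i = 0) ∧ (0 < i.1 → a i ≤ 1 + wasc a i.1)

/-- `a` avoids the pattern `210`. -/
def Avoids210 {n : ℕ} (a : Fin n → ℕ) : Prop :=
  ¬ ∃ i j k : Fin n, i < j ∧ j < k ∧ a k < a j ∧ a j < a i

/-- `π` avoids the vincular pattern `2-41-3`. -/
def Avoids2413 {n : ℕ} (π : Equiv.Perm (Fin n)) : Prop :=
  ¬ ∃ i j j' k : Fin n, i < j ∧ (j' : ℕ) = j + 1 ∧ (j : ℕ) + 1 < k ∧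
    π j' < π i ∧ π i < π k ∧ π k < π j

attribute [local instance] Classical.propDecidable

/-! ### permutations -/

/-- the site `u` is forbidden -/
def Bd {n : ℕ} (τ : Equiv.Perm (Fin n)) (u : ℕ) : Prop :=
  ∃ a b c : Fin n, a < b ∧ (c : ℕ) = b + 1 ∧ τ c < τ a ∧ (τ a : ℕ) < u ∧ u ≤ (τ b : ℕ)

lemma avoids_snocP {n : ℕ} (v : Fin (n + 1)) (τ : Equiv.Perm (Fin n)) :
    Avoids2413 (snocP v τ) ↔ Avoids2413 τ ∧ ¬ Bd τ v := by
  constructor
  · intro H
    constructor
    · rintro ⟨a, b, c, d, h1, h2, h3, h4, h5, h6⟩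
      apply H
      refine ⟨a.castSucc, b.castSucc, c.castSucc, d.castSucc, by simpa using h1, by simpa using h2,
        by simpa using h3, ?_⟩
      simp only [snocP_castSucc]
      exact ⟨by simpa using h4, by simpa using h5, by simpa using h6⟩
    · rintro ⟨a, b, c, h1, h2, h3, h4, h5⟩
      apply H
      refine ⟨a.castSucc, b.castSucc, c.castSucc, Fin.last n, by simpa using h1, by simpa using h2,
        ?_, ?_⟩
      · have := c.2
        simp only [Fin.val_castSucc, Fin.val_last]
        omega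
      simp only [snocP_castSucc, snocP_last]
      refine ⟨by simpa using h3, ?_, ?_⟩
      · rw [Fin.lt_def, succAbove_val, if_pos h4]
        exact h4
      · rw [Fin.lt_def, succAbove_val, if_neg (by omega)]
        omega
  · rintro ⟨H, hb⟩ ⟨a, b, c, d, h1, h2, h3, h4, h5, h6⟩
    induction c using Fin.lastCases with
    | last =>
      have := d.2
      simp only [Fin.val_last] at h2
      omega
    | cast c =>
      induction b using Fin.lastCases with
      | last =>
        simp only [Fin.val_castSucc, Fin.val_last] at h2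
        have := c.2
        omega
      | cast b =>
        induction a using Fin.lastCases with
        | last => exact absurd (lt_of_lt_of_le h1 (Fin.le_last _)) (lt_irrefl _)
        | cast a =>
          simp only [Fin.castSucc_lt_castSucc_iff] at h1
          simp only [Fin.val_castSucc] at h2 h3
          simp only [snocP_castSucc] at h4 h5 h6
          have h4' : τ c < τ a := by simpa using h4
          induction d using Fin.lastCases with
          | last =>
            simp only [snocP_last] at h5 h6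
            rw [Fin.lt_def, succAbove_val] at h5 h6
            apply hb
            refine ⟨a, b, c, h1, h2, h4', ?_, ?_⟩
            · split_ifs at h5 <;> omega
            · split_ifs at h6 <;> omega
          | cast d =>
            simp only [Fin.val_castSucc] at h3
            simp only [snocP_castSucc] at h5 h6
            exact H ⟨a, b, c, d, h1, h2, h3, h4', by simpa using h5, by simpa using h6⟩

/-- the forbidden sites after appending -/
lemma bd_snocP {m : ℕ} (v : Fin (m + 2)) (τ : Equiv.Perm (Fin (m + 1))) (u : ℕ) :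
    Bd (snocP v τ) u ↔ Bd τ (if u ≤ v then u else u - 1) ∨
      ((v : ℕ) + 2 ≤ u ∧ u ≤ (τ (Fin.last m) : ℕ) + 1) := by
  have hval : ∀ x : Fin (m + 1), ((v.succAbove x : Fin (m + 2)) : ℕ) < u ↔
      (x : ℕ) < (if u ≤ v then u else u - 1) := by
    intro x
    rw [succAbove_val]
    split_ifs <;> omega
  constructor
  · rintro ⟨a, b, c, h1, h2, h3, h4, h5⟩
    induction c using Fin.lastCases with
    | last =>
      right
      rw [snocP_last] at h3
      have hb : b = (Fin.last m).castSucc := by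
        apply Fin.ext
        simp only [Fin.val_last] at h2
        simp
        omega
      subst hb
      rw [snocP_castSucc, succAbove_val] at h5
      rw [Fin.lt_def] at h3
      split_ifs at h5 <;> omega
    | cast c =>
      left
      induction b using Fin.lastCases with
      | last =>
        simp only [Fin.val_castSucc, Fin.val_last] at h2
        have := c.2
        omega
      | cast b =>
        induction a using Fin.lastCases with
        | last => exact absurd (lt_of_lt_of_le h1 (Fin.le_last _)) (lt_irrefl _)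
        | cast a =>
          simp only [snocP_castSucc] at h3 h4 h5
          refine ⟨a, b, c, by simpa using h1, by simpa using h2, by simpa using h3,
            (hval _).1 h4, ?_⟩
          rw [← not_lt] at h5 ⊢
          rwa [hval] at h5
  · rintro (⟨a, b, c, h1, h2, h3, h4, h5⟩ | ⟨h1, h2⟩)
    · refine ⟨a.castSucc, b.castSucc, c.castSucc, by simpa using h1, by simpa using h2, ?_, ?_, ?_⟩
      · simp only [snocP_castSucc]
        simpa using h3
      · rw [snocP_castSucc]
        exact (hval _).2 h4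
      · rw [snocP_castSucc, ← not_lt, hval, not_lt]
        exact h5
    · set l := τ (Fin.last m) with hl
      have hv := v.2
      have hl2 := l.2
      let x : Fin (m + 1) := ⟨(v : ℕ), by omega⟩
      have hx : τ (τ.symm x) = x := by simp
      have hne : τ.symm x ≠ Fin.last m := by
        intro h
        have h3 : x = l := by
          rw [← hx, h]
        have := congrArg Fin.val h3
        simp [x] at this
        omega
      refine ⟨(τ.symm x).castSucc, (Fin.last m).castSucc, Fin.last (m + 1), ?_, by simp, ?_, ?_, ?_⟩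
      · simp only [Fin.castSucc_lt_castSucc_iff]
        exact lt_of_le_of_ne (Fin.le_last _) hne
      · rw [snocP_castSucc, snocP_last, hx, Fin.lt_def, succAbove_val]
        simp only [x]
        split_ifs <;> omega
      · rw [snocP_castSucc, hx, succAbove_val]
        simp only [x]
        split_ifs <;> omega
      · rw [snocP_castSucc, succAbove_val, ← hl]
        split_ifs <;> omega

/-- allowed sites up to `N` -/
noncomputable def ac {n : ℕ} (τ : Equiv.Perm (Fin n)) (N : ℕ) : Finset ℕ :=
  (range N).filter fun u => ¬ Bd τ u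

/-- allowed sites at most the last value -/
noncomputable def ph {m : ℕ} (τ : Equiv.Perm (Fin (m + 1))) : ℕ :=
  (ac τ ((τ (Fin.last m) : ℕ) + 1)).card

/-- allowed sites above the last value -/
noncomputable def pk {m : ℕ} (τ : Equiv.Perm (Fin (m + 1))) : ℕ :=
  (ac τ (m + 2)).card - ph τ

lemma ac_mono {n : ℕ} (τ : Equiv.Perm (Fin n)) {N N' : ℕ} (h : N ≤ N') : ac τ N ⊆ ac τ N' := by
  unfold ac
  apply filter_subset_filter
  intro x
  simp only [mem_range]
  omega

lemma ph_add_pk {m : ℕ} (τ : Equiv.Perm (Fin (m + 1))) : ph τ + pk τ = (ac τ (m + 2)).card := by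
  unfold pk ph
  have := card_le_card (ac_mono τ (N := (τ (Fin.last m) : ℕ) + 1) (N' := m + 2)
    (by have := (τ (Fin.last m)).2; omega))
  omega

lemma ac_low {m : ℕ} (v : Fin (m + 2)) (τ : Equiv.Perm (Fin (m + 1))) :
    ac (snocP v τ) ((v : ℕ) + 1) = ac τ ((v : ℕ) + 1) := by
  unfold ac
  apply filter_congr
  intro u hu
  rw [mem_range] at hu
  rw [bd_snocP, if_pos (by omega)]
  constructor
  · intro h h2
    exact h (Or.inl h2)
  · intro h h2
    rcases h2 with h2 | h2
    · exact h h2
    · omega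

lemma ac_split {n : ℕ} (τ : Equiv.Perm (Fin n)) {N N' : ℕ} (h : N ≤ N') :
    (ac τ N').card = (ac τ N).card + ((Ico N N').filter fun u => ¬ Bd τ u).card := by
  rw [← card_union_of_disjoint]
  · congr 1
    ext u
    simp only [ac, mem_filter, mem_range, mem_union, mem_Ico]
    constructor
    · rintro ⟨h1, h2⟩
      by_cases h3 : u < N
      · exact Or.inl ⟨h3, h2⟩
      · exact Or.inr ⟨⟨by omega, h1⟩, h2⟩
    · rintro (⟨h1, h2⟩ | ⟨⟨_, h1⟩, h2⟩)
      · exact ⟨by omega, h2⟩
      · exact ⟨h1, h2⟩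
  · rw [Finset.disjoint_left]
    intro u hu hu'
    simp only [ac, mem_filter, mem_range, mem_Ico] at hu hu'
    omega

/-- the labels after appending a value at most the last value -/
lemma lab_le {m : ℕ} (v : Fin (m + 2)) (τ : Equiv.Perm (Fin (m + 1)))
    (hb : ¬ Bd τ v) (hv : (v : ℕ) ≤ τ (Fin.last m)) :
    ph (snocP v τ) = (ac τ ((v : ℕ) + 1)).card ∧ pk (snocP v τ) = pk τ + 1 := by
  have hl := (τ (Fin.last m)).2
  have h1 : ph (snocP v τ) = (ac τ ((v : ℕ) + 1)).card := by
    unfold ph
    rw [snocP_last, ac_low v τ]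
  refine ⟨h1, ?_⟩
  have h2 := ph_add_pk (snocP v τ)
  rw [show m + 1 + 2 = m + 3 from rfl] at h2
  have h3 := ac_split (snocP v τ) (N := (v : ℕ) + 1) (N' := m + 3) (by omega)
  rw [ac_low] at h3
  have h4 : ((Ico ((v : ℕ) + 1) (m + 3)).filter fun u => ¬ Bd (snocP v τ) u) =
      insert ((v : ℕ) + 1)
        ((Ico ((τ (Fin.last m) : ℕ) + 2) (m + 3)).filter fun u => ¬ Bd τ (u - 1)) := by
    ext u
    simp only [mem_filter, mem_insert, mem_Ico]
    rw [bd_snocP]
    constructor
    · rintro ⟨⟨h5, h6⟩, h7⟩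
      rw [if_neg (by omega)] at h7
      push Not at h7
      by_cases h8 : u = (v : ℕ) + 1
      · exact Or.inl h8
      · right
        refine ⟨⟨?_, h6⟩, h7.1⟩
        have := h7.2 (by omega)
        omega
    · rintro (h5 | ⟨⟨h5, h6⟩, h7⟩)
      · subst h5
        refine ⟨⟨le_rfl, by omega⟩, ?_⟩
        rw [if_neg (by omega), Nat.add_sub_cancel]
        rintro (h6 | h6)
        · exact hb h6
        · omega
      · refine ⟨⟨by omega, h6⟩, ?_⟩
        rw [if_neg (by omega)]
        rintro (h8 | h8)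
        · exact h7 h8
        · omega
  have h5 : ((Ico ((τ (Fin.last m) : ℕ) + 2) (m + 3)).filter fun u => ¬ Bd τ (u - 1)).card =
      ((Ico ((τ (Fin.last m) : ℕ) + 1) (m + 2)).filter fun u => ¬ Bd τ u).card := by
    refine Finset.card_bij' (fun u _ => u - 1) (fun u _ => u + 1) ?_ ?_ ?_ ?_
    · intro u hu
      simp only [mem_filter, mem_Ico] at hu ⊢
      exact ⟨by omega, hu.2⟩
    · intro u hu
      simp only [mem_filter, mem_Ico] at hu ⊢
      exact ⟨by omega, by simpa using hu.2⟩
    · intro u hu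
      simp only [mem_filter, mem_Ico] at hu
      omega
    · intro u hu
      simp only [mem_filter, mem_Ico] at hu
      omega
  have h6 := ac_split τ (N := (τ (Fin.last m) : ℕ) + 1) (N' := m + 2) (by omega)
  rw [h4, card_insert_of_notMem (by simp [mem_Ico]; omega), h5] at h3
  have h7 := ph_add_pk τ
  have h8 : ph τ = (ac τ ((τ (Fin.last m) : ℕ) + 1)).card := rfl
  omega

/-- the labels after appending a value above the last value -/
lemma lab_gt {m : ℕ} (v : Fin (m + 2)) (τ : Equiv.Perm (Fin (m + 1)))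
    (hb : ¬ Bd τ v) (hv : (τ (Fin.last m) : ℕ) < v) :
    ph (snocP v τ) = (ac τ ((v : ℕ) + 1)).card ∧
      pk (snocP v τ) = (ac τ (m + 2)).card + 1 - (ac τ ((v : ℕ) + 1)).card := by
  have hv2 := v.2
  have h1 : ph (snocP v τ) = (ac τ ((v : ℕ) + 1)).card := by
    unfold ph
    rw [snocP_last, ac_low v τ]
  refine ⟨h1, ?_⟩
  have h2 := ph_add_pk (snocP v τ)
  rw [show m + 1 + 2 = m + 3 from rfl] at h2
  have h3 := ac_split (snocP v τ) (N := (v : ℕ) + 1) (N' := m + 3) (by omega)
  rw [ac_low] at h3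
  have h5 : ((Ico ((v : ℕ) + 1) (m + 3)).filter fun u => ¬ Bd (snocP v τ) u).card =
      ((Ico (v : ℕ) (m + 2)).filter fun u => ¬ Bd τ u).card := by
    refine Finset.card_bij' (fun u _ => u - 1) (fun u _ => u + 1) ?_ ?_ ?_ ?_
    · intro u hu
      simp only [mem_filter, mem_Ico] at hu ⊢
      obtain ⟨h4, h5⟩ := hu
      rw [bd_snocP, if_neg (by omega)] at h5
      push Not at h5
      exact ⟨by omega, h5.1⟩
    · intro u hu
      simp only [mem_filter, mem_Ico] at hu ⊢
      obtain ⟨h4, h5⟩ := hu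
      refine ⟨by omega, ?_⟩
      rw [bd_snocP, if_neg (by omega)]
      rintro (h6 | h6)
      · exact h5 (by simpa using h6)
      · omega
    · intro u hu
      simp only [mem_filter, mem_Ico] at hu
      omega
    · intro u hu
      simp only [mem_filter, mem_Ico] at hu
      omega
  have h6 := ac_split τ (N := (v : ℕ)) (N' := m + 2) (by omega)
  have h7 : (ac τ ((v : ℕ) + 1)).card = (ac τ (v : ℕ)).card + 1 := by
    have : ac τ ((v : ℕ) + 1) = insert (v : ℕ) (ac τ (v : ℕ)) := by
      ext u
      simp only [ac, mem_filter, mem_range, mem_insert]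
      constructor
      · rintro ⟨h1, h2⟩
        by_cases h3 : u = v
        · exact Or.inl h3
        · exact Or.inr ⟨by omega, h2⟩
      · rintro (h1 | ⟨h1, h2⟩)
        · subst h1
          exact ⟨by omega, hb⟩
        · exact ⟨by omega, h2⟩
    rw [this, card_insert_of_notMem]
    simp [ac]
  omega

/-- one step of the tree of permutations -/
lemma stepP {m : ℕ} (τ : Equiv.Perm (Fin (m + 1))) (f : ℕ → ℕ → ℕ) :
    ∑ v : Fin (m + 2), (if ¬ Bd τ v then f (ph (snocP v τ)) (pk (snocP v τ)) else 0) =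
      T' f (ph τ) (pk τ) := by
  set l := (τ (Fin.last m) : ℕ) with hl
  have hlm : l ≤ m := by have := (τ (Fin.last m)).2; omega
  set S := ac τ (m + 2) with hS
  set g : ℕ → ℕ := fun v => if v ≤ l then f (ac τ (v + 1)).card (pk τ + 1)
    else f (ac τ (v + 1)).card (S.card + 1 - (ac τ (v + 1)).card) with hg
  have h1 : ∑ v : Fin (m + 2), (if ¬ Bd τ v then f (ph (snocP v τ)) (pk (snocP v τ)) else 0) =
      ∑ v ∈ S, g v := by
    have h2 : ∑ v ∈ S, g v = ∑ v ∈ range (m + 2), if ¬ Bd τ v then g v else 0 := by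
      rw [hS]
      unfold ac
      rw [sum_filter]
    rw [h2, ← Fin.sum_univ_eq_sum_range (fun v => if ¬ Bd τ v then g v else 0)]
    apply sum_congr rfl
    intro v _
    by_cases hb : Bd τ v
    · simp [hb]
    · simp only [hb, not_false_eq_true, if_true, hg]
      split_ifs with hv
      · obtain ⟨e1, e2⟩ := lab_le v τ hb hv
        rw [e1, e2]
      · obtain ⟨e1, e2⟩ := lab_gt v τ hb (by omega)
        rw [e1, e2]
  rw [h1]
  have hlh : ph τ = (ac τ (l + 1)).card := rfl
  have hsub : ac τ (l + 1) ⊆ S := ac_mono τ (by omega)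
  have hSc : S.card = ph τ + pk τ := (ph_add_pk τ).symm
  rw [← Finset.sum_sdiff hsub, add_comm]
  unfold T'
  congr 1
  · rw [hlh, ← sum_rank (ac τ (l + 1)) (fun j => f j (pk τ + 1))]
    apply sum_congr rfl
    intro v hv
    have hv' : v ≤ l := by
      simp only [ac, mem_filter, mem_range] at hv
      omega
    have e : (ac τ (l + 1)).filter (fun u => u ≤ v) = ac τ (v + 1) := by
      ext u
      simp only [ac, mem_filter, mem_range]
      constructor
      · rintro ⟨⟨h1, h2⟩, h3⟩
        exact ⟨by omega, h2⟩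
      · rintro ⟨h1, h2⟩
        exact ⟨⟨by omega, h2⟩, by omega⟩
    simp only [hg, if_pos hv', e]
  · have hcard : (S \ ac τ (l + 1)).card = pk τ := by
      rw [card_sdiff_of_subset hsub]
      rfl
    rw [← hcard, ← sum_rank (S \ ac τ (l + 1)) (fun i => f (ph τ + i) ((S \ ac τ (l + 1)).card + 1 - i))]
    apply sum_congr rfl
    intro v hv
    have hv' : l < v ∧ v < m + 2 := by
      simp only [hS, ac, mem_sdiff, mem_filter, mem_range] at hv
      constructor
      · by_contra h
        exact hv.2 ⟨by omega, hv.1.2⟩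
      · exact hv.1.1
    have e : (ac τ (v + 1)).card = ph τ + ((S \ ac τ (l + 1)).filter (fun u => u ≤ v)).card := by
      rw [hlh, ← card_union_of_disjoint]
      · congr 1
        ext u
        simp only [hS, ac, mem_sdiff, mem_filter, mem_range, mem_union]
        constructor
        · rintro ⟨h1, h2⟩
          by_cases h3 : u < l + 1
          · exact Or.inl ⟨h3, h2⟩
          · exact Or.inr ⟨⟨⟨by omega, h2⟩, fun h => h3 h.1⟩, by omega⟩
        · rintro (⟨h1, h2⟩ | ⟨⟨⟨h1, h2⟩, h3⟩, h4⟩)
          · exact ⟨by omega, h2⟩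
          · exact ⟨by omega, h2⟩
      · rw [Finset.disjoint_left]
        intro u hu hu'
        simp only [mem_filter, mem_sdiff] at hu'
        exact hu'.1.2 hu
    simp only [hg, if_neg (not_le.2 hv'.1)]
    rw [hcard, hSc, e]
    congr 1
    omega

/-- weighted count of the permutations -/
noncomputable def WP (m : ℕ) (f : ℕ → ℕ → ℕ) : ℕ :=
  ∑ τ : Equiv.Perm (Fin (m + 1)), if Avoids2413 τ then f (ph τ) (pk τ) else 0

lemma WP_succ (m : ℕ) (f : ℕ → ℕ → ℕ) : WP (m + 1) f = WP m (T' f) := by
  unfold WP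
  rw [sum_snocP]
  apply sum_congr rfl
  intro τ _
  by_cases hτ : Avoids2413 τ
  · rw [if_pos hτ, ← stepP τ f]
    apply sum_congr rfl
    intro v _
    by_cases hb : Bd τ v
    · rw [if_neg (by rw [avoids_snocP]; tauto), if_neg (by tauto)]
    · rw [if_pos (by rw [avoids_snocP]; tauto), if_pos hb]
  · rw [if_neg hτ]
    apply sum_eq_zero
    intro v _
    rw [if_neg]
    rw [avoids_snocP]
    tauto

lemma WP_zero (f : ℕ → ℕ → ℕ) : WP 0 f = f 1 1 := by
  unfold WP
  change (∑ τ : Equiv.Perm (Fin 1), if Avoids2413 τ then f (ph (m := 0) τ) (pk (m := 0) τ) else 0)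
    = f 1 1
  rw [Fintype.sum_unique]
  have hbad : ∀ (τ : Equiv.Perm (Fin 1)) u, ¬ Bd τ u := by
    rintro τ u ⟨a, b, c, h1, _⟩
    have := Subsingleton.elim a b
    subst this
    exact lt_irrefl _ h1
  have hval : Avoids2413 (default : Equiv.Perm (Fin 1)) := by
    rintro ⟨a, b, c, d, h1, _⟩
    have := Subsingleton.elim a b
    subst this
    exact absurd h1 (lt_irrefl _)
  refine (if_pos hval).trans ?_
  have h0 : ((default : Equiv.Perm (Fin 1)) (Fin.last 0) : ℕ) = 0 := by
    have := ((default : Equiv.Perm (Fin 1)) (Fin.last 0)).2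
    omega
  have hact : ∀ N, ac (default : Equiv.Perm (Fin 1)) N = range N := by
    intro N
    unfold ac
    apply filter_true_of_mem
    intro u _
    exact hbad _ u
  unfold pk ph
  rw [h0, hact, hact]
  simp

lemma WP_eq (m : ℕ) (f : ℕ → ℕ → ℕ) : WP m f = (T'^[m] f) 1 1 := by
  induction m generalizing f with
  | zero => exact WP_zero f
  | succ m ih => rw [WP_succ, ih, ← Function.iterate_succ_apply]


/-! ### weak ascent sequences -/

/-- number of weak ascents -/
def wa {n : ℕ} (a : Fin n → ℕ) : ℕ := wasc a n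

/-- the largest entry which is smaller than a previous entry -/
noncomputable def lo {n : ℕ} (a : Fin n → ℕ) : ℕ :=
  (univ.filter fun j : Fin n => ∃ i, i < j ∧ a j < a i).sup a

lemma snc_mk {n : ℕ} (a : Fin n → ℕ) (v i : ℕ) (h : i < n) (h' : i < n + 1) :
    (Fin.snoc (α := fun _ => ℕ) a v : Fin (n + 1) → ℕ) ⟨i, h'⟩ = a ⟨i, h⟩ := by
  have : (⟨i, h'⟩ : Fin (n + 1)) = (⟨i, h⟩ : Fin n).castSucc := rfl
  rw [this, Fin.snoc_castSucc]

lemma wasc_snoc_le {n : ℕ} (a : Fin n → ℕ) (v : ℕ) {i : ℕ} (hi : i ≤ n) :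
    wasc (Fin.snoc (α := fun _ => ℕ) a v : Fin (n + 1) → ℕ) i = wasc a i := by
  unfold wasc
  rw [Fin.sum_univ_castSucc, if_neg (by simp; omega), add_zero]
  apply sum_congr rfl
  intro j _
  have h1 : (Fin.snoc (α := fun _ => ℕ) a v : Fin (n + 1) → ℕ) j.castSucc = a j := by rw [Fin.snoc_castSucc]
  have h2 : (Fin.snoc (α := fun _ => ℕ) a v : Fin (n + 1) → ℕ) ⟨j.castSucc.1 - 1, by omega⟩ = a ⟨j.1 - 1, by omega⟩ :=
    snc_mk a v _ (by simp only [Fin.val_castSucc]; omega) _
  rw [h1, h2]
  rfl

lemma wa_snoc {m : ℕ} (a : Fin (m + 1) → ℕ) (v : ℕ) :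
    wa (Fin.snoc (α := fun _ => ℕ) a v : Fin (m + 2) → ℕ) = wa a + if a (Fin.last m) ≤ v then 1 else 0 := by
  unfold wa wasc
  rw [Fin.sum_univ_castSucc]
  congr 1
  · apply sum_congr rfl
    intro j _
    have h1 : (Fin.snoc (α := fun _ => ℕ) a v : Fin (m + 2) → ℕ) j.castSucc = a j := by rw [Fin.snoc_castSucc]
    have h2 : (Fin.snoc (α := fun _ => ℕ) a v : Fin (m + 2) → ℕ) ⟨j.castSucc.1 - 1, by omega⟩ = a ⟨j.1 - 1, by omega⟩ :=
      snc_mk a v _ (by omega) _
    rw [h1, h2]
    have := j.2
    simp only [Fin.val_castSucc]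
    congr 1
    apply propext
    constructor
    · rintro ⟨h3, h4, h5⟩
      exact ⟨h3, by omega, h5⟩
    · rintro ⟨h3, h4, h5⟩
      exact ⟨h3, by omega, h5⟩
  · have h1 : (Fin.snoc (α := fun _ => ℕ) a v : Fin (m + 2) → ℕ) (Fin.last (m + 1)) = v := by rw [Fin.snoc_last]
    have h2 : (Fin.snoc (α := fun _ => ℕ) a v : Fin (m + 2) → ℕ) ⟨(Fin.last (m + 1)).1 - 1, by omega⟩ = a (Fin.last m) :=
      snc_mk a v _ (by simp) _
    rw [h1, h2]
    simp

lemma was_snoc {m : ℕ} (a : Fin (m + 1) → ℕ) (v : ℕ) :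
    IsWeakAscentSeq (Fin.snoc (α := fun _ => ℕ) a v : Fin (m + 2) → ℕ) ↔ IsWeakAscentSeq a ∧ v ≤ 1 + wa a := by
  constructor
  · intro H
    constructor
    · intro i
      have := H i.castSucc
      rw [Fin.snoc_castSucc, Fin.val_castSucc, wasc_snoc_le _ _ (by omega)] at this
      exact this
    · have := (H (Fin.last (m + 1))).2 (by simp)
      rw [Fin.snoc_last, Fin.val_last, wasc_snoc_le _ _ le_rfl] at this
      exact this
  · rintro ⟨H, hv⟩ i
    induction i using Fin.lastCases with
    | last =>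
      rw [Fin.snoc_last, Fin.val_last, wasc_snoc_le _ _ le_rfl]
      exact ⟨by omega, fun _ => hv⟩
    | cast i =>
      rw [Fin.snoc_castSucc, Fin.val_castSucc, wasc_snoc_le _ _ (by omega)]
      exact H i

lemma av_snoc {n : ℕ} (a : Fin n → ℕ) (v : ℕ) :
    Avoids210 (Fin.snoc (α := fun _ => ℕ) a v : Fin (n + 1) → ℕ) ↔ Avoids210 a ∧ lo a ≤ v := by
  constructor
  · intro H
    constructor
    · rintro ⟨i, j, k, h1, h2, h3, h4⟩
      exact H ⟨i.castSucc, j.castSucc, k.castSucc, by simpa using h1, by simpa using h2,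
        by simpa using h3, by simpa using h4⟩
    · apply Finset.sup_le
      intro j hj
      simp only [mem_filter, mem_univ, true_and] at hj
      obtain ⟨i, h1, h2⟩ := hj
      by_contra hlt
      apply H
      refine ⟨i.castSucc, j.castSucc, Fin.last n, by simpa using h1, Fin.castSucc_lt_last j, ?_, ?_⟩
      · rw [Fin.snoc_last, Fin.snoc_castSucc]
        omega
      · rw [Fin.snoc_castSucc, Fin.snoc_castSucc]
        exact h2
  · rintro ⟨H, hv⟩ ⟨i, j, k, h1, h2, h3, h4⟩
    induction j using Fin.lastCases with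
    | last => exact absurd (lt_of_lt_of_le h2 (Fin.le_last _)) (lt_irrefl _)
    | cast j =>
      induction i using Fin.lastCases with
      | last => exact absurd (lt_of_lt_of_le h1 (Fin.le_last _)) (lt_irrefl _)
      | cast i =>
        rw [Fin.snoc_castSucc, Fin.snoc_castSucc] at h4
        induction k using Fin.lastCases with
        | last =>
          rw [Fin.snoc_last, Fin.snoc_castSucc] at h3
          have : a j ≤ lo a := by
            unfold lo
            apply Finset.le_sup (f := a)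
            simp only [mem_filter, mem_univ, true_and]
            exact ⟨i, by simpa using h1, h4⟩
          omega
        | cast k =>
          rw [Fin.snoc_castSucc, Fin.snoc_castSucc] at h3
          exact H ⟨i, j, k, by simpa using h1, by simpa using h2, h3, h4⟩

lemma lo_snoc {m : ℕ} (a : Fin (m + 1) → ℕ) (v : ℕ) :
    lo (Fin.snoc (α := fun _ => ℕ) a v : Fin (m + 2) → ℕ) = if v < mx a then max (lo a) v else lo a := by
  have hle : ∀ i, a i ≤ mx a := le_mx a
  apply le_antisymm
  · apply Finset.sup_le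
    intro j hj
    simp only [mem_filter, mem_univ, true_and] at hj
    obtain ⟨i, h1, h2⟩ := hj
    induction i using Fin.lastCases with
    | last => exact absurd (lt_of_lt_of_le h1 (Fin.le_last _)) (lt_irrefl _)
    | cast i =>
      rw [Fin.snoc_castSucc] at h2
      induction j using Fin.lastCases with
      | last =>
        rw [Fin.snoc_last] at h2 ⊢
        rw [if_pos (lt_of_lt_of_le h2 (hle i))]
        exact le_max_right _ _
      | cast j =>
        rw [Fin.snoc_castSucc] at h2 ⊢
        have h3 : a j ≤ lo a := by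
          unfold lo
          apply Finset.le_sup (f := a)
          simp only [mem_filter, mem_univ, true_and]
          exact ⟨i, by simpa using h1, h2⟩
        split_ifs
        · exact h3.trans (le_max_left _ _)
        · exact h3
  · have h3 : lo a ≤ lo (Fin.snoc (α := fun _ => ℕ) a v : Fin (m + 2) → ℕ) := by
      apply Finset.sup_le
      intro j hj
      simp only [mem_filter, mem_univ, true_and] at hj
      obtain ⟨i, h1, h2⟩ := hj
      have h4 : (Fin.snoc (α := fun _ => ℕ) a v : Fin (m + 2) → ℕ) j.castSucc ≤ lo (Fin.snoc (α := fun _ => ℕ) a v : Fin (m + 2) → ℕ) := by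
        unfold lo
        apply Finset.le_sup (f := (Fin.snoc (α := fun _ => ℕ) a v : Fin (m + 2) → ℕ))
        simp only [mem_filter, mem_univ, true_and]
        refine ⟨i.castSucc, by simpa using h1, ?_⟩
        rw [Fin.snoc_castSucc, Fin.snoc_castSucc]
        exact h2
      rwa [Fin.snoc_castSucc] at h4
    split_ifs with h5
    · apply max_le h3
      obtain ⟨i, hi⟩ := exists_mx a
      have h4 : (Fin.snoc (α := fun _ => ℕ) a v : Fin (m + 2) → ℕ) (Fin.last (m + 1)) ≤
          lo (Fin.snoc (α := fun _ => ℕ) a v : Fin (m + 2) → ℕ) := by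
        unfold lo
        apply Finset.le_sup (f := (Fin.snoc (α := fun _ => ℕ) a v : Fin (m + 2) → ℕ))
        simp only [mem_filter, mem_univ, true_and]
        refine ⟨i.castSucc, Fin.castSucc_lt_last i, ?_⟩
        rw [Fin.snoc_castSucc, Fin.snoc_last, hi]
        exact h5
      rwa [Fin.snoc_last] at h4
    · exact h3

/-- the first label -/
noncomputable def wh {m : ℕ} (a : Fin (m + 1) → ℕ) : ℕ :=
  if a (Fin.last m) = mx a then mx a - lo a + 1 else mx a - lo a

/-- the second label -/
noncomputable def wk {m : ℕ} (a : Fin (m + 1) → ℕ) : ℕ :=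
  if a (Fin.last m) = mx a then wa a + 1 - mx a else wa a + 2 - mx a

/-- invariants -/
def Inv {m : ℕ} (a : Fin (m + 1) → ℕ) : Prop :=
  mx a ≤ wa a ∧ lo a ≤ mx a ∧ (a (Fin.last m) ≠ mx a → a (Fin.last m) = lo a ∧ lo a < mx a)

lemma inv_snoc {m : ℕ} (a : Fin (m + 1) → ℕ) (v : ℕ) (h : Inv a) (h1 : lo a ≤ v)
    (h2 : v ≤ 1 + wa a) : Inv (Fin.snoc (α := fun _ => ℕ) a v : Fin (m + 2) → ℕ) := by
  obtain ⟨h3, h4, h5⟩ := h
  have hlast := le_mx a (Fin.last m)
  unfold Inv
  rw [mx_snoc, lo_snoc, wa_snoc, Fin.snoc_last]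
  by_cases h6 : v < mx a
  · rw [if_pos h6, max_eq_left h6.le, max_eq_right h1]
    refine ⟨by omega, h6.le, fun _ => ⟨rfl, h6⟩⟩
  · rw [if_neg h6, max_eq_right (by omega), if_pos (by omega)]
    exact ⟨by omega, by omega, fun h => absurd rfl h⟩

lemma stepW {m : ℕ} (a : Fin (m + 1) → ℕ) (hI : Inv a) (hwm : wa a ≤ m) (f : ℕ → ℕ → ℕ) :
    ∑ v ∈ range (m + 2), (if lo a ≤ v ∧ v ≤ 1 + wa a then
      f (wh (Fin.snoc (α := fun _ => ℕ) a v : Fin (m + 2) → ℕ)) (wk (Fin.snoc (α := fun _ => ℕ) a v : Fin (m + 2) → ℕ)) else 0) =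
      T' f (wh a) (wk a) := by
  obtain ⟨h3, h4, h5⟩ := hI
  have hlast := le_mx a (Fin.last m)
  set M := mx a with hM
  set b := lo a with hb
  set w := wa a with hw
  have hlow : ∀ v, b ≤ v → v < M → wh (Fin.snoc (α := fun _ => ℕ) a v : Fin (m + 2) → ℕ) = M - v ∧
      wk (Fin.snoc (α := fun _ => ℕ) a v : Fin (m + 2) → ℕ) = w + (if a (Fin.last m) ≤ v then 1 else 0) + 2 - M := by
    intro v h6 h7
    unfold wh wk
    rw [mx_snoc, lo_snoc, wa_snoc, Fin.snoc_last, ← hM, ← hb, ← hw, if_pos h7, max_eq_left h7.le,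
      max_eq_right h6, if_neg (by omega), if_neg (by omega)]
    exact ⟨rfl, rfl⟩
  have htop : ∀ v, M ≤ v → wh (Fin.snoc (α := fun _ => ℕ) a v : Fin (m + 2) → ℕ) = v - b + 1 ∧
      wk (Fin.snoc (α := fun _ => ℕ) a v : Fin (m + 2) → ℕ) = w + 2 - v := by
    intro v h6
    unfold wh wk
    rw [mx_snoc, lo_snoc, wa_snoc, Fin.snoc_last, ← hM, ← hb, ← hw, max_eq_right h6, if_pos rfl,
      if_pos rfl, if_neg (show ¬ v < M by omega), if_pos (show a (Fin.last m) ≤ v by omega)]
    exact ⟨rfl, by omega⟩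
  rw [← sum_filter]
  have hset : (range (m + 2)).filter (fun v => b ≤ v ∧ v ≤ 1 + w) =
      Ico b M ∪ Ico M (w + 2) := by
    ext v
    simp only [mem_filter, mem_range, mem_union, mem_Ico]
    omega
  rw [hset, sum_union (by
    rw [Finset.disjoint_left]
    intro u
    simp only [mem_Ico]
    omega)]
  have e1 : ∀ c : ℕ, ∑ v ∈ Ico b M, f (M - v) c = ∑ i ∈ Icc 1 (M - b), f i c := by
    intro c
    refine Finset.sum_bij' (fun v _ => M - v) (fun i _ => M - i) ?_ ?_ ?_ ?_ ?_
    · intro v hv; simp only [mem_Ico, mem_Icc] at hv ⊢; omega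
    · intro v hv; simp only [mem_Ico, mem_Icc] at hv ⊢; omega
    · intro v hv; simp only [mem_Ico] at hv; omega
    · intro v hv; simp only [mem_Icc] at hv; omega
    · intro v hv; rfl
  by_cases h6 : a (Fin.last m) = M
  · -- top
    have l1 : wh a = M - b + 1 := by unfold wh; rw [if_pos h6]
    have l2 : wk a = w + 1 - M := by unfold wk; rw [if_pos h6]
    rw [l1, l2]
    have s1 : ∑ v ∈ Ico b M, f (wh (Fin.snoc (α := fun _ => ℕ) a v : Fin (m + 2) → ℕ)) (wk (Fin.snoc (α := fun _ => ℕ) a v : Fin (m + 2) → ℕ)) =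
        ∑ i ∈ Icc 1 (M - b), f i (w + 1 - M + 1) := by
      rw [← e1]
      apply sum_congr rfl
      intro v hv
      rw [mem_Ico] at hv
      obtain ⟨h7, h8⟩ := hlow v hv.1 hv.2
      rw [h7, h8, if_neg (by omega)]
      congr 1
      omega
    have s2 : ∑ v ∈ Ico M (w + 2), f (wh (Fin.snoc (α := fun _ => ℕ) a v : Fin (m + 2) → ℕ))
        (wk (Fin.snoc (α := fun _ => ℕ) a v : Fin (m + 2) → ℕ)) =
        f (M - b + 1) (w + 1 - M + 1) +
          ∑ i ∈ Icc 1 (w + 1 - M), f (M - b + 1 + i) (w + 1 - M + 1 - i) := by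
      rw [Finset.sum_eq_sum_Ico_succ_bot (by omega)]
      obtain ⟨h7, h8⟩ := htop M le_rfl
      rw [h7, h8]
      have h9 : w + 2 - M = w + 1 - M + 1 := by omega
      rw [h9]
      congr 1
      refine Finset.sum_bij' (fun v _ => v - M) (fun i _ => i + M) ?_ ?_ ?_ ?_ ?_
      · intro v hv; simp only [mem_Ico, mem_Icc] at hv ⊢; omega
      · intro v hv; simp only [mem_Ico, mem_Icc] at hv ⊢; omega
      · intro v hv; simp only [mem_Ico] at hv; omega
      · intro v hv; simp only [mem_Icc] at hv; omega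
      · intro v hv
        simp only [mem_Ico] at hv
        obtain ⟨h7, h8⟩ := htop v (by omega)
        rw [h7, h8]
        congr 1 <;> omega
    rw [s1, s2]
    unfold T'
    rw [Finset.sum_Icc_succ_top (by omega)]
    ring
  · -- low
    obtain ⟨h7, h8⟩ := h5 h6
    have l1 : wh a = M - b := by unfold wh; rw [if_neg h6]
    have l2 : wk a = w + 2 - M := by unfold wk; rw [if_neg h6]
    rw [l1, l2]
    have s1 : ∑ v ∈ Ico b M, f (wh (Fin.snoc (α := fun _ => ℕ) a v : Fin (m + 2) → ℕ)) (wk (Fin.snoc (α := fun _ => ℕ) a v : Fin (m + 2) → ℕ)) =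
        ∑ i ∈ Icc 1 (M - b), f i (w + 2 - M + 1) := by
      rw [← e1]
      apply sum_congr rfl
      intro v hv
      rw [mem_Ico] at hv
      obtain ⟨h9, h10⟩ := hlow v hv.1 hv.2
      rw [h9, h10, if_pos (by omega)]
      congr 1
      omega
    have s2 : ∑ v ∈ Ico M (w + 2), f (wh (Fin.snoc (α := fun _ => ℕ) a v : Fin (m + 2) → ℕ))
        (wk (Fin.snoc (α := fun _ => ℕ) a v : Fin (m + 2) → ℕ)) =
          ∑ i ∈ Icc 1 (w + 2 - M), f (M - b + i) (w + 2 - M + 1 - i) := by
      refine Finset.sum_bij' (fun v _ => v + 1 - M) (fun i _ => i + M - 1) ?_ ?_ ?_ ?_ ?_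
      · intro v hv; simp only [mem_Ico, mem_Icc] at hv ⊢; omega
      · intro v hv; simp only [mem_Ico, mem_Icc] at hv ⊢; omega
      · intro v hv; simp only [mem_Ico] at hv; omega
      · intro v hv; simp only [mem_Icc] at hv; omega
      · intro v hv
        simp only [mem_Ico] at hv
        obtain ⟨h9, h10⟩ := htop v (by omega)
        rw [h9, h10]
        congr 1 <;> omega
    rw [s1, s2]
    rfl

/-- weighted count of the weak ascent sequences -/
noncomputable def WW (m : ℕ) (f : ℕ → ℕ → ℕ) : ℕ :=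
  ∑ e ∈ IS (m + 1), if IsWeakAscentSeq e ∧ Avoids210 e then f (wh e) (wk e) else 0

lemma wa_le {m : ℕ} (a : Fin (m + 1) → ℕ) : wa a ≤ m := by
  unfold wa wasc
  rw [Fin.sum_univ_succ]
  rw [if_neg (by simp), zero_add]
  calc _ ≤ ∑ _j : Fin m, 1 := sum_le_sum fun j _ => by split_ifs <;> omega
    _ = m := by simp

lemma inv_all : ∀ (m : ℕ) (a : Fin (m + 1) → ℕ), IsWeakAscentSeq a → Avoids210 a → Inv a := by
  intro m
  induction m with
  | zero =>
    intro a h1 _
    have h2 : a (Fin.last 0) = 0 := (h1 (Fin.last 0)).1 rfl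
    have h3 : mx a = 0 := by
      apply Nat.le_zero.1
      apply Finset.sup_le
      intro i _
      have : i = Fin.last 0 := Fin.ext (by simp)
      rw [this, h2]
    have h4 : lo a = 0 := by
      unfold lo
      rw [filter_false_of_mem]
      · rfl
      · rintro j _ ⟨i, hi, _⟩
        rw [Fin.lt_def] at hi
        omega
    unfold Inv
    rw [h3, h4, h2]
    simp
  | succ m ih =>
    intro a h1 h2
    have h3 : a = (Fin.snoc (α := fun _ => ℕ) (fun i : Fin (m + 1) => a i.castSucc) (a (Fin.last (m + 1))) : Fin (m + 2) → ℕ) := by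
      funext i
      induction i using Fin.lastCases with
      | last => simp
      | cast i => simp
    rw [h3] at h1 h2 ⊢
    rw [was_snoc] at h1
    rw [av_snoc] at h2
    exact inv_snoc _ _ (ih _ h1.1 h2.1) h2.2 h1.2

lemma WW_succ (m : ℕ) (f : ℕ → ℕ → ℕ) : WW (m + 1) f = WW m (T' f) := by
  unfold WW
  rw [sum_IS]
  apply sum_congr rfl
  intro e he
  by_cases hτ : IsWeakAscentSeq e ∧ Avoids210 e
  · rw [if_pos hτ, ← stepW e (inv_all m e hτ.1 hτ.2) (wa_le e) f]
    apply sum_congr rfl
    intro v _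
    by_cases hb : lo e ≤ v ∧ v ≤ 1 + wa e
    · rw [if_pos (by rw [was_snoc, av_snoc]; tauto), if_pos hb]
    · rw [if_neg (by rw [was_snoc, av_snoc]; tauto), if_neg hb]
  · rw [if_neg hτ]
    apply sum_eq_zero
    intro v _
    rw [if_neg]
    rw [was_snoc, av_snoc]
    tauto

lemma WW_zero (f : ℕ → ℕ → ℕ) : WW 0 f = f 1 1 := by
  unfold WW
  have h1 : IS 1 = {fun _ => 0} := by
    ext e
    simp only [IS, Fintype.mem_piFinset, mem_range, mem_singleton]
    constructor
    · intro h
      funext i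
      have := h i
      have := i.2
      omega
    · rintro rfl i
      simp
  change (∑ e ∈ IS 1, if IsWeakAscentSeq e ∧ Avoids210 e then f (wh (m := 0) e) (wk (m := 0) e)
    else 0) = f 1 1
  rw [h1, sum_singleton]
  have hw : IsWeakAscentSeq (fun _ : Fin 1 => 0) := fun i => ⟨fun _ => rfl, fun _ => by omega⟩
  have ha : Avoids210 (fun _ : Fin 1 => 0) := by
    rintro ⟨i, j, k, h1, _⟩
    have := Subsingleton.elim i j
    subst this
    exact absurd h1 (lt_irrefl _)
  rw [if_pos ⟨hw, ha⟩]
  have h3 : mx (fun _ : Fin 1 => 0) = 0 := by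
    unfold mx
    simp
  have h4 : lo (fun _ : Fin 1 => 0) = 0 := by
    unfold lo
    simp
  have h5 : wa (fun _ : Fin 1 => 0) = 0 := by
    unfold wa wasc
    simp
  unfold wh wk
  rw [h3, h4, h5]
  simp

lemma WW_eq (m : ℕ) (f : ℕ → ℕ → ℕ) : WW m f = (T'^[m] f) 1 1 := by
  induction m generalizing f with
  | zero => exact WW_zero f
  | succ m ih => rw [WW_succ, ih, ← Function.iterate_succ_apply]

lemma entry_le {n : ℕ} (a : Fin n → ℕ) (h : IsWeakAscentSeq a) (i : Fin n) : a i ≤ i := by
  rcases Nat.eq_zero_or_pos i.1 with h1 | h1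
  · rw [(h i).1 h1]
    omega
  · have h2 := (h i).2 h1
    have h3 : wasc a i.1 ≤ i.1 - 1 := by
      unfold wasc
      rw [← card_filter]
      have : (univ.filter fun j : Fin n => 0 < j.1 ∧ j.1 < i.1 ∧ a ⟨j.1 - 1, by omega⟩ ≤ a j).card ≤
          (Ico 1 i.1).card := by
        refine card_le_card_of_injOn (fun j => j.1) ?_ ?_
        · intro j hj
          simp only [coe_filter, mem_univ, true_and, Set.mem_ofPred_eq] at hj
          simp only [coe_Ico, Set.mem_Ico]
          omega
        · intro j _ j' _ hjj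
          exact Fin.ext hjj
      rw [Nat.card_Ico] at this
      exact this
    omega

/-- For every `n ≥ 1` the number of the weak ascent sequences of length `n` which avoid `210` is the
number of the permutations of length `n` which avoid `2-41-3`. -/
theorem result (n : ℕ) (hn : 1 ≤ n) :
    Nat.card {a : Fin n → ℕ // IsWeakAscentSeq a ∧ Avoids210 a} =
      Nat.card {π : Equiv.Perm (Fin n) // Avoids2413 π} := by
  obtain ⟨m, rfl⟩ : ∃ m, n = m + 1 := ⟨n - 1, by omega⟩
  have h1 : Nat.card {π : Equiv.Perm (Fin (m + 1)) // Avoids2413 π} =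
      (T'^[m] (fun _ _ => 1)) 1 1 := by
    rw [← WP_eq, Nat.card_eq_fintype_card, Fintype.card_subtype, card_filter]
    rfl
  have h2 : Nat.card {a : Fin (m + 1) → ℕ // IsWeakAscentSeq a ∧ Avoids210 a} =
      (T'^[m] (fun _ _ => 1)) 1 1 := by
    rw [← WW_eq]
    unfold WW
    rw [← card_filter, ← Fintype.card_coe, ← Nat.card_eq_fintype_card]
    apply Nat.card_congr
    refine Equiv.subtypeEquivRight ?_
    intro a
    simp only [mem_filter, IS, Fintype.mem_piFinset, mem_range]
    constructor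
    · intro h
      exact ⟨fun i => by have := entry_le a h.1 i; omega, h⟩
    · intro h
      exact h.2
  rw [h1, h2]

end Pool.Agent.Results.MP_5aad23_co.Weak210
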